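import Pool.Agent.Q291.BC.Rank

set_option autoImplicit false

/-!
# Zipf's law for the boundary clusters of critical percolation

Critical bond percolation on the square lattice wrapped on a half-infinite cylinder with `n` boundary
vertices. The number of boundary clusters with more than `k` boundary vertices has an exact mean, its
variance is at most `C n^(4/3) / (k+1)^2`, and the `r`-th largest boundary cluster has
`(n / (2 √π r))^(2/3)` boundary vertices, asymptotically in probability, for all ranks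
`1 << r << n`.

Idea: by the disjoint occurrence inequality two boundary vertices in different clusters are at most as
likely to be both in clusters with at least `j` boundary vertices as for independent configurations.
So the variance of the number of boundary vertices in such clusters is at most `n` times the mean
size `~ n^(1/3)` of a cluster; the number of clusters is a combination of these numbers with absolute
weights `2 / k` in total.
-/

namespace Pool.Agent.Results.MP_6bd702_pr.BoundaryClusterRanks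

open Filter Topology MeasureTheory

/-- The two vertices of the cell `(a, t)` of the cylinder: the vertices are the `(x, t)` with
`x ∈ ℤ/2n`, `t ≥ 0` and `x + t` even, and each cell contains one edge, from row `t` to row `t + 1`. -/
def Ends (n : ℕ) (a : ZMod (2 * n)) (t : ℕ) (p r : ZMod (2 * n) × ℕ) : Prop :=
  (Even (a.val + t) ∧ p = (a, t) ∧ r = (a + 1, t + 1)) ∨
    (¬ Even (a.val + t) ∧ p = (a + 1, t) ∧ r = (a, t + 1))

/-- `p` and `r` are the ends of an open edge -/
def Open (n : ℕ) (ω : ZMod (2 * n) × ℕ → Bool) (p r : ZMod (2 * n) × ℕ) : Prop :=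
  ∃ (a : ZMod (2 * n)) (t : ℕ), ω (a, t) = true ∧ Ends n a t p r

/-- every edge is open with probability `1/2`, independently -/
noncomputable def perc (n : ℕ) : Measure (ZMod (2 * n) × ℕ → Bool) :=
  Measure.infinitePi (fun _ => (PMF.uniformOfFintype Bool).toMeasure)

/-- the boundary vertices in the cluster of the boundary vertex `b` -/
def trace (n : ℕ) (b : ZMod (2 * n)) (ω : ZMod (2 * n) × ℕ → Bool) : Set (ZMod (2 * n)) :=
  {c | Relation.EqvGen (Open n ω) (b, 0) (c, 0)}

/-- the boundary clusters (each given by its set of boundary vertices) -/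
def clusters (n : ℕ) (ω : ZMod (2 * n) × ℕ → Bool) : Set (Set (ZMod (2 * n))) :=
  {C | ∃ b : ZMod (2 * n), Even b.val ∧ C = trace n b ω}

/-- the number of boundary clusters with more than `x` boundary vertices -/
noncomputable def count (n : ℕ) (x : ℝ) (ω : ZMod (2 * n) × ℕ → Bool) : ℝ :=
  ({C ∈ clusters n ω | x < (C.ncard : ℝ)}.ncard : ℝ)

/-- the number of boundary vertices of the `r`-th largest boundary cluster: the largest `k` such
that at least `r` boundary clusters have at least `k` boundary vertices -/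
noncomputable def size (n r : ℕ) (ω : ZMod (2 * n) × ℕ → Bool) : ℕ :=
  sSup {k : ℕ | r ≤ {C ∈ clusters n ω | k ≤ C.ncard}.ncard}

/-- the exact weights -/
noncomputable def T (n k : ℕ) : ℝ := if k ≤ n then ((2 * k).choose k : ℝ) * (3 * k - 1) /
  (2 * (2 * k - 1)) * (((n + k - 1).factorial : ℝ) * (2 * n - k).factorial) /
    (((n - k).factorial : ℝ) * (2 * n + k - 1).factorial) else 0

theorem T_eq {n k : ℕ} (hk : 1 ≤ k) : T n k = H731B.tl n k := by
  unfold T
  split_ifs with h
  · rw [H731B.tl_closed hk h]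
  · rw [H731B.tl_gt (by omega)]

theorem count_eq (n : ℕ) {x : ℝ} (hx : 0 ≤ x) (ω : ZMod (2 * n) × ℕ → Bool) :
    count n x ω = ((Q291.BC.Cl n (⌊x⌋₊ + 1) ω).ncard : ℝ) := by
  unfold count
  congr 2
  ext C
  constructor
  · rintro ⟨h1, h2⟩
    exact ⟨h1, by
      have := (Nat.floor_lt hx).2 h2
      omega⟩
  · rintro ⟨h1, h2⟩
    exact ⟨h1, (Nat.floor_lt hx).1 (by omega)⟩

theorem mean_eq {n k : ℕ} (hn : 1 ≤ n) : ∫ ω, count n k ω ∂(perc n) = n * Q291.BC.Sm n (k + 1) := by
  have h := (Q291.BC.mean_count (k := k + 1) hn (by omega)).2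
  have e : ∀ ω, count n k ω = ((Q291.BC.Cl n (k + 1) ω).ncard : ℝ) := by
    intro ω
    rw [count_eq n (Nat.cast_nonneg k), Nat.floor_natCast]
  simp only [e]
  exact h

/-- Critical bond percolation on the half-infinite cylinder with `n` boundary vertices; `count n x`
is the number of boundary clusters with more than `x` boundary vertices, and `size n r` the number of
boundary vertices of the `r`-th largest boundary cluster.

(1) The exact mean: `E (count n k) = n Σ_{j > k} (T n j - T n (j+1)) / j`.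
(2) Its scaling limit: if `R_n → ∞` and `R_n / n^(2/3) → θ ∈ [0, ∞)`, then
`(R_n)^(3/2) / n * E (count n R_n)` tends to
`exp (-θ³/4) / (2 √π) + θ^(3/2) / √π * ∫_{θ^(3/2)/2}^∞ exp (-u²) du`.
(3) The variance of `count n k` is at most `C n^(4/3) / (k+1)^2`.
(4) The ranks: if `r_n → ∞` and `r_n / n → 0`, then `(r_n / n)^(2/3) * size n r_n` tends to
`(2 √π)^(-2/3)` in probability. -/
theorem result :
    (∀ n k : ℕ, 1 ≤ n → Integrable (count n k) (perc n) ∧
      ∫ ω, count n k ω ∂(perc n) =
        n * ∑ j ∈ Finset.Icc (k + 1) n, (T n j - T n (j + 1)) / (j : ℝ)) ∧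
    (∀ (R : ℕ → ℝ) (θ : ℝ), 0 ≤ θ → Tendsto R atTop atTop →
      Tendsto (fun n : ℕ => R n / (n : ℝ) ^ ((2 : ℝ) / 3)) atTop (𝓝 θ) →
      Tendsto (fun n : ℕ => (R n) ^ ((3 : ℝ) / 2) / n * ∫ ω, count n (R n) ω ∂(perc n)) atTop
        (𝓝 (Real.exp (-(θ ^ 3 / 4)) / (2 * Real.sqrt Real.pi) +
          θ ^ ((3 : ℝ) / 2) / Real.sqrt Real.pi *
            ∫ u in Set.Ioi (θ ^ ((3 : ℝ) / 2) / 2), Real.exp (-u ^ 2)))) ∧
    (∃ C : ℝ, ∀ n k : ℕ, 1 ≤ n →
      Integrable (fun ω => (count n k ω - ∫ ω', count n k ω' ∂(perc n)) ^ 2) (perc n) ∧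
      ∫ ω, (count n k ω - ∫ ω', count n k ω' ∂(perc n)) ^ 2 ∂(perc n) ≤
        C * (n : ℝ) ^ ((4 : ℝ) / 3) / ((k : ℝ) + 1) ^ 2) ∧
    (∀ r : ℕ → ℕ, Tendsto r atTop atTop → Tendsto (fun n : ℕ => (r n : ℝ) / n) atTop (𝓝 0) →
      ∀ ε : ℝ, 0 < ε → Tendsto (fun n : ℕ => (perc n).real {ω | ε ≤
        |((r n : ℝ) / n) ^ ((2 : ℝ) / 3) * (size n (r n) ω : ℝ) -
          (2 * Real.sqrt Real.pi) ^ (-((2 : ℝ) / 3))|}) atTop (𝓝 0)) := by
  have e : ∀ (n k : ℕ) ω, count n k ω = ((Q291.BC.Cl n (k + 1) ω).ncard : ℝ) := by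
    intro n k ω
    rw [count_eq n (Nat.cast_nonneg k), Nat.floor_natCast]
  refine ⟨?_, ?_, ?_, ?_⟩
  · intro n k hn
    refine ⟨?_, ?_⟩
    · have h := (Q291.BC.mean_count (k := k + 1) hn (by omega)).1
      exact h.congr (Eventually.of_forall fun ω => (e n k ω).symm)
    · rw [mean_eq hn]
      unfold Q291.BC.Sm
      congr 1
      refine Finset.sum_congr rfl fun j hj => ?_
      rw [Finset.mem_Icc] at hj
      rw [T_eq (by omega), T_eq (by omega)]
  · intro R θ hθ hR hRθ
    have h := Q291.BC.Sm_lim hθ hR hRθ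
    have h32 : θ ^ ((3 : ℝ) / 2) = Real.sqrt (θ ^ 3) := by
      rw [Real.sqrt_eq_rpow, ← Real.rpow_natCast, ← Real.rpow_mul hθ]
      norm_num
    have e1 : Q291.BC.FF θ = Real.exp (-(θ ^ 3 / 4)) / (2 * Real.sqrt Real.pi) +
          θ ^ ((3 : ℝ) / 2) / Real.sqrt Real.pi *
            ∫ u in Set.Ioi (θ ^ ((3 : ℝ) / 2) / 2), Real.exp (-u ^ 2) := by
      unfold Q291.BC.FF Q291.BC.Ph
      rw [h32]
      ring
    rw [← e1]
    refine h.congr' ?_
    filter_upwards [hR.eventually_gt_atTop 0, eventually_ge_atTop 1] with n hn hn1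
    have h2 := (Q291.BC.mean_count (k := ⌊R n⌋₊ + 1) hn1 (by omega)).2
    have e2 : ∫ ω, count n (R n) ω ∂(perc n) = n * Q291.BC.Sm n (⌊R n⌋₊ + 1) := by
      simp only [fun ω => count_eq n hn.le ω]
      exact h2
    rw [e2]
    have hn0 : (0 : ℝ) < n := by exact_mod_cast hn1
    have e3 : (R n) ^ ((3 : ℝ) / 2) = R n * Real.sqrt (R n) := by
      rw [Real.sqrt_eq_rpow, show (3 : ℝ) / 2 = 1 + 1 / 2 by norm_num, Real.rpow_add hn,
        Real.rpow_one]
    rw [e3]
    field_simp
  · obtain ⟨C, -, hC⟩ := Q291.BC.var_le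
    refine ⟨C, fun n k hn => ?_⟩
    have h := hC n (k + 1) hn (by omega)
    rw [mean_eq hn]
    simp only [e]
    push_cast at h
    exact h
  · intro r hr hr2 ε hε
    have h := Q291.BC.rank_law hr hr2 hε
    have e1 : Q291.BC.kz = (2 * Real.sqrt Real.pi) ^ (-((2 : ℝ) / 3)) := by
      unfold Q291.BC.kz Q291.BC.cz
      rw [one_div, Real.inv_rpow (by positivity), Real.rpow_neg (by positivity)]
    rw [← e1]
    exact h

end Pool.Agent.Results.MP_6bd702_pr.BoundaryClusterRanks
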