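import Pool.Agent.Q291.BC.Max4

set_option autoImplicit false

/-!
# The largest boundary cluster of critical percolation: sharp large deviations

Critical bond percolation on the square lattice wrapped on a half-infinite cylinder with `n` boundary
vertices. The largest boundary cluster has of order `n^(2/3)` boundary vertices. Here is the exact
asymptotic probability that it has at least `k_n` of them, for all `n^(2/3) << k_n ≤ n`, with the
uniqueness of such a cluster, the law of the overshoot, the rate function for `k_n ~ κ n`, and a bound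
for the lower tail.

Idea: the mean number of clusters with at least `k` boundary vertices is exact; by the disjoint
occurrence inequality the mean number of pairs of such clusters is at most the square of the main
term, so inclusion and exclusion is sharp; the weights satisfy an exact recursion.
-/

namespace Pool.Agent.Results.MP_6bd702_pr.LargestBoundaryCluster

open Filter Topology MeasureTheory

/-- The two vertices of the cell `(a, t)` of the cylinder: the vertices are the `(x, t)` with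
`x ∈ ℤ/2n`, `t ≥ 0` and `x + t` even, and each cell contains one edge, from row `t` to row `t + 1`. -/
def Ends (n : ℕ) (a : ZMod (2 * n)) (t : ℕ) (p r : ZMod (2 * n) × ℕ) : Prop :=
  (Even (a.val + t) ∧ p = (a, t) ∧ r = (a + 1, t + 1)) ∨
    (¬ Even (a.val + t) ∧ p = (a + 1, t) ∧ r = (a, t + 1))

/-- `p` and `r` are the ends of an open edge -/
def Open (n : ℕ) (ω : ZMod (2 * n) × ℕ → Bool) (p r : ZMod (2 * n) × ℕ) : Prop :=
  ∃ (a : ZMod (2 * n)) (t : ℕ), ω (a, t) = true ∧ Ends n a t p r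

/-- every edge is open with probability `1/2`, independently -/
noncomputable def perc (n : ℕ) : Measure (ZMod (2 * n) × ℕ → Bool) :=
  Measure.infinitePi (fun _ => (PMF.uniformOfFintype Bool).toMeasure)

/-- the boundary vertices in the cluster of the boundary vertex `b` -/
def trace (n : ℕ) (b : ZMod (2 * n)) (ω : ZMod (2 * n) × ℕ → Bool) : Set (ZMod (2 * n)) :=
  {c | Relation.EqvGen (Open n ω) (b, 0) (c, 0)}

/-- the boundary clusters (each given by its set of boundary vertices) -/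
def clusters (n : ℕ) (ω : ZMod (2 * n) × ℕ → Bool) : Set (Set (ZMod (2 * n))) :=
  {C | ∃ b : ZMod (2 * n), Even b.val ∧ C = trace n b ω}

/-- the largest number of boundary vertices of a boundary cluster -/
noncomputable def largest (n : ℕ) (ω : ZMod (2 * n) × ℕ → Bool) : ℕ :=
  sSup {k : ℕ | ∃ C ∈ clusters n ω, C.ncard = k}

/-- some boundary cluster has at least `x` boundary vertices -/
noncomputable def tail (n : ℕ) (x : ℝ) : ℝ := (perc n).real {ω | x ≤ (largest n ω : ℝ)}

/-- two different boundary clusters have at least `k` boundary vertices each -/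
noncomputable def tail2 (n k : ℕ) : ℝ :=
  (perc n).real {ω | 2 ≤ {C ∈ clusters n ω | k ≤ C.ncard}.ncard}

/-- the exact weights -/
noncomputable def T (n k : ℕ) : ℝ := if k ≤ n then ((2 * k).choose k : ℝ) * (3 * k - 1) /
  (2 * (2 * k - 1)) * (((n + k - 1).factorial : ℝ) * (2 * n - k).factorial) /
    (((n - k).factorial : ℝ) * (2 * n + k - 1).factorial) else 0

/-- the main term -/
noncomputable def main (n k : ℕ) : ℝ := n * T n k / k

theorem T_eq {n k : ℕ} (hk : 1 ≤ k) : T n k = H731B.tl n k := by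
  unfold T
  split_ifs with h
  · rw [H731B.tl_closed hk h]
  · rw [H731B.tl_gt (by omega)]

theorem main_eq {n k : ℕ} (hk : 1 ≤ k) : main n k = Q291.BC.mm n k := by
  unfold main Q291.BC.mm
  rw [T_eq hk]

theorem largest_iff {n k : ℕ} (hn : 1 ≤ n) (_hk : 1 ≤ k) (ω : ZMod (2 * n) × ℕ → Bool) :
    k ≤ largest n ω ↔ 1 ≤ (Q291.BC.Cl n k ω).ncard := by
  have hfin : (Q291.BC.Cl n 0 ω).Finite := Q291.BC.Cl_fin hn 0 ω
  have hS : {k : ℕ | ∃ C ∈ clusters n ω, C.ncard = k} = Set.ncard '' (Q291.BC.Cl n 0 ω) := by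
    ext m
    constructor
    · rintro ⟨C, hC, rfl⟩
      exact ⟨C, ⟨hC, Nat.zero_le _⟩, rfl⟩
    · rintro ⟨C, ⟨hC, -⟩, rfl⟩
      exact ⟨C, hC, rfl⟩
  have hbd : BddAbove {k : ℕ | ∃ C ∈ clusters n ω, C.ncard = k} := by
    rw [hS]
    exact (hfin.image _).bddAbove
  have hne : {k : ℕ | ∃ C ∈ clusters n ω, C.ncard = k}.Nonempty :=
    ⟨_, trace n 0 ω, ⟨0, by
      have : NeZero (2 * n) := ⟨by omega⟩
      rw [ZMod.val_zero]
      exact ⟨0, rfl⟩, rfl⟩, rfl⟩
  constructor
  · intro h
    obtain ⟨C, hC, hCe⟩ := Nat.sSup_mem hne hbd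
    have h1 : (Q291.BC.Cl n k ω).Nonempty := ⟨C, hC, by rw [hCe]; exact h⟩
    exact (Set.ncard_pos (Q291.BC.Cl_fin hn k ω)).2 h1
  · intro h
    obtain ⟨C, hC, hCe⟩ := (Set.ncard_pos (Q291.BC.Cl_fin hn k ω)).1 h
    exact le_trans hCe (le_csSup hbd ⟨C, hC, rfl⟩)

theorem tail_eq {n k : ℕ} (hn : 1 ≤ n) (hk : 1 ≤ k) :
    tail n k = (perc n).real (Q291.BC.Ev n k) := by
  unfold tail
  congr 1
  ext ω
  show ((k : ℕ) : ℝ) ≤ ((largest n ω : ℕ) : ℝ) ↔ 1 ≤ (Q291.BC.Cl n k ω).ncard
  rw [Nat.cast_le]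
  exact largest_iff hn hk ω

theorem tail_ceil {n : ℕ} {x : ℝ} (hn : 1 ≤ n) (hx : 0 < x) :
    tail n x = (perc n).real (Q291.BC.Ev n ⌈x⌉₊) := by
  rw [← tail_eq hn (Nat.ceil_pos.2 hx)]
  unfold tail
  congr 1
  ext ω
  show x ≤ (largest n ω : ℝ) ↔ ((⌈x⌉₊ : ℕ) : ℝ) ≤ (largest n ω : ℝ)
  rw [Nat.cast_le, Nat.ceil_le]

/-- Critical bond percolation on the half-infinite cylinder with `n` boundary vertices; `largest n` is
the number of boundary vertices of the largest boundary cluster, `tail n x` the probability that it is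
at least `x`, and `main n k = n T(n,k) / k` with the explicit weights `T n k`.

(1) For all `1 ≤ k ≤ n`: `(1 - 4n²/(3k³)) main - main²/2 ≤ tail n k ≤ main`, and two different
clusters have at least `k` boundary vertices each with probability at most `main²/2`.
(2) If `k_n ≤ n` and `k_n / n^(2/3) → ∞` then `tail n k_n / main n k_n → 1`, and given that there is a
cluster with at least `k_n` boundary vertices it is the only one with probability tending to 1.
(3) Overshoot: if moreover `k_n / n → 0`, then for `y ≥ 0`, given `largest n ≥ k_n`, the probability of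
`largest n ≥ k_n + y n² / k_n²` tends to `exp (-3y/4)`.
(4) If `k_n / n → κ ∈ (0,1)` then `log (tail n k_n) / n → ∫_0^κ log ((1-s²)/(1-s²/4)) ds`, and the
overshoot over `k_n` is asymptotically geometric with ratio `(1-κ²)/(1-κ²/4)`.
(5) `largest n < k` has probability at most `C k / n^(2/3)`. -/
theorem result :
    (∀ n k : ℕ, 1 ≤ k → k ≤ n →
      (1 - 4 / 3 * ((n : ℝ) ^ 2 / (k : ℝ) ^ 3)) * main n k - main n k ^ 2 / 2 ≤ tail n k ∧
      tail n k ≤ main n k ∧ tail2 n k ≤ main n k ^ 2 / 2) ∧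
    (∀ k : ℕ → ℕ, (∀ᶠ n in atTop, k n ≤ n) →
      Tendsto (fun n : ℕ => (k n : ℝ) / (n : ℝ) ^ ((2 : ℝ) / 3)) atTop atTop →
      Tendsto (fun n : ℕ => tail n (k n) / main n (k n)) atTop (𝓝 1) ∧
      Tendsto (fun n : ℕ => tail2 n (k n) / tail n (k n)) atTop (𝓝 0)) ∧
    (∀ k : ℕ → ℕ, Tendsto (fun n : ℕ => (k n : ℝ) / (n : ℝ) ^ ((2 : ℝ) / 3)) atTop atTop →
      Tendsto (fun n : ℕ => (k n : ℝ) / n) atTop (𝓝 0) → ∀ y : ℝ, 0 ≤ y →
      Tendsto (fun n : ℕ => tail n (k n + y * ((n : ℝ) ^ 2 / (k n : ℝ) ^ 2)) / tail n (k n)) atTop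
        (𝓝 (Real.exp (-(3 / 4 * y))))) ∧
    (∀ (k : ℕ → ℕ) (κ : ℝ), 0 < κ → κ < 1 → Tendsto (fun n : ℕ => (k n : ℝ) / n) atTop (𝓝 κ) →
      Tendsto (fun n : ℕ => Real.log (tail n (k n)) / n) atTop
        (𝓝 (∫ s in (0 : ℝ)..κ, Real.log ((1 - s ^ 2) / (1 - s ^ 2 / 4)))) ∧
      ∀ j : ℕ, Tendsto (fun n : ℕ => tail n (k n + j) / tail n (k n)) atTop
        (𝓝 (((1 - κ ^ 2) / (1 - κ ^ 2 / 4)) ^ j))) ∧
    (∃ C : ℝ, ∀ n k : ℕ, 1 ≤ n → 1 ≤ k →
      (perc n).real {ω | largest n ω < k} ≤ C * (k / (n : ℝ) ^ ((2 : ℝ) / 3))) := by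
  have e2 : ∀ n k : ℕ, tail2 n k = (perc n).real {ω | 2 ≤ (Q291.BC.Cl n k ω).ncard} := fun _ _ => rfl
  refine ⟨?_, ?_, ?_, ?_, ?_⟩
  · intro n k hk hkn
    rw [main_eq hk, tail_eq (by omega) hk, e2]
    obtain ⟨h1, h2⟩ := Q291.BC.Ev_bounds hk hkn
    exact ⟨h1, h2, Q291.BC.Ev_two (by omega) hk hkn⟩
  · intro k hkn hk
    have hb : Q291.BC.Lrg k := hk
    constructor
    · refine (Q291.BC.Ev_asymp hb hkn).congr' ?_
      filter_upwards [hb.pos, eventually_ge_atTop 1] with n h1 h2
      rw [tail_eq h2 h1, main_eq h1]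
      rfl
    · refine (Q291.BC.two_asymp hb hkn).congr' ?_
      filter_upwards [hb.pos, eventually_ge_atTop 1] with n h1 h2
      rw [tail_eq h2 h1, e2]
      rfl
  · intro k hk hk0 y hy
    have hb : Q291.BC.Lrg k := hk
    refine (Q291.BC.overshoot hb hk0 hy).congr' ?_
    filter_upwards [hb.pos, eventually_ge_atTop 1] with n h1 h2
    have h3 : (0 : ℝ) < k n := by exact_mod_cast h1
    rw [tail_eq h2 h1, tail_ceil h2 (by positivity)]
    rfl
  · intro k κ h0 h1 hk
    have hb := Q291.BC.big_of_lin h0 hk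
    constructor
    · refine (Q291.BC.rate h0 h1 hk).congr' ?_
      filter_upwards [hb.pos, eventually_ge_atTop 1] with n h2 h3
      rw [tail_eq h3 h2]
      rfl
    · intro j
      refine (Q291.BC.overshoot_lin h0 h1 hk j).congr' ?_
      filter_upwards [hb.pos, eventually_ge_atTop 1] with n h2 h3
      have h4 : ((k n : ℝ) + j) = ((k n + j : ℕ) : ℝ) := by push_cast; rfl
      rw [h4, tail_eq h3 h2, tail_eq h3 (by omega)]
      rfl
  · obtain ⟨C, -, h⟩ := Q291.BC.lower_tail
    refine ⟨C, fun n k hn hk => ?_⟩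
    refine le_trans (le_of_eq ?_) (h n k hn hk)
    congr 1
    ext ω
    show largest n ω < k ↔ ω ∉ Q291.BC.Ev n k
    rw [← not_le, largest_iff hn hk]
    rfl

end Pool.Agent.Results.MP_6bd702_pr.LargestBoundaryCluster
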