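import Pool.Agent.Q292.LDep.Main

/-!
# The dependence between the boundary loops of far critical clusters: `R ^ (-1/2) * log R`

Critical bond percolation on `ℤ²`. A state `σ = (v, corner)` of an interface is a vertex `v` (on
its right) and one of the four faces at `v` (on its left); the edge examined at `σ` starts at `v`
along this face; if it is open the interface follows it, if it is closed the interface turns around
`v` to the next face. `path σ ω` is the interface from `σ` as a sequence of states. Almost surely
it is a closed loop: the outer perimeter, or the boundary of a hole, of the open cluster of `v`.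

* For any two states `σ`, `τ` the total variation distance between the joint law of the two whole
  interfaces and the product of their laws is *equal* to the probability that the interface of `σ`
  in one configuration and the interface of `τ` in another, independent configuration have a
  common state which they leave in different ways.
* At distance `R` this is of exact order `R ^ (-1/2) * log R`: the contributions of all the scales
  between `1` and `R` around `σ` and around `τ` are of the same order.
* The probability that `σ` and `τ` are on the same loop is of exact order `R ^ (-1/2)`.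

Definitions of the model: `Pool.Agent.H974R2.{Model,Infinite}` (`sqLattice`, `bondLaw`, `opn`),
`Pool.Agent.H984R3.Per.Defs` (`St`, `nxt`).
-/

set_option autoImplicit false

namespace Pool.Agent.Results.MP_6bd702_pr.LoopDependence

open H974 H984P MeasureTheory

/-- The law of critical bond percolation on `ℤ²`. -/
noncomputable def law : Measure (sqLattice.edgeSet → Bool) := bondLaw hlf

/-- The distance of the supremum norm. -/
def dist (u v : ℤ × ℤ) : ℕ := max (u.1 - v.1).natAbs (u.2 - v.2).natAbs

/-- The interface which starts at `σ`: its state after `s` steps. -/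
noncomputable def path (σ : St) (ω : sqLattice.edgeSet → Bool) (s : ℕ) : St :=
  (nxt (opn ω))^[s] σ

/-- The two paths have a common state which they leave in different ways. -/
def Separate (p q : ℕ → St) : Prop := ∃ s t, p s = q t ∧ p (s + 1) ≠ q (t + 1)

/-- The probability, for two independent configurations `p.1` and `p.2`, that the interface of `σ`
in the first one and the interface of `τ` in the second one have a common state which they leave in
different ways. -/
noncomputable def sep (σ τ : St) : ℝ :=
  (law.prod law).real {p | Separate (path σ p.1) (path τ p.2)}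

theorem result :
    (∀ᵐ ω ∂law, ∀ σ : St, ∃ s, 0 < s ∧ path σ ω s = σ) ∧
    (∀ σ τ : St, IsGreatest {t : ℝ | ∃ B : Set ((ℕ → St) × (ℕ → St)),
      t = |law.real {ω | (path σ ω, path τ ω) ∈ B} -
        (law.prod law).real {p | (path σ p.1, path τ p.2) ∈ B}|} (sep σ τ)) ∧
    (∃ (c C : ℝ) (R₀ : ℕ), 0 < c ∧ 0 < C ∧ ∀ (σ τ : St) (R : ℕ), dist σ.1 τ.1 = R → R₀ ≤ R →
      (c * (R : ℝ) ^ (-(1 / 2 : ℝ)) ≤ law.real {ω | ∃ s, path σ ω s = τ} ∧
        law.real {ω | ∃ s, path σ ω s = τ} ≤ C * (R : ℝ) ^ (-(1 / 2 : ℝ))) ∧
      c * ((R : ℝ) ^ (-(1 / 2 : ℝ)) * Real.log R) ≤ sep σ τ ∧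
      sep σ τ ≤ C * ((R : ℝ) ^ (-(1 / 2 : ℝ)) * Real.log R)) := by
  obtain ⟨hcl, c, C, R0, hc, hC, h⟩ := Q292.LDep.main
  refine ⟨?_, ?_, c, C, R0, hc, hC, ?_⟩
  · rw [ae_all_iff]
    intro σ
    filter_upwards [hcl σ] with ω hω
    exact hω
  · intro σ τ
    constructor
    · exact ⟨{q | Separate q.1 q.2}, (Q292.LDep.tv_exact σ τ).symm⟩
    · rintro t ⟨B, rfl⟩
      exact Q292.LDep.tv_upper hcl σ τ B
  · intro σ τ R hd hR
    exact h σ τ R hR (by rw [Q292.LDep.ds_max]; exact_mod_cast hd)

end Pool.Agent.Results.MP_6bd702_pr.LoopDependence
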