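import Pool.Agent.Q292.TVY.LoopEx

/-!
# The law of a cluster boundary near criticality: the perturbation exponent `2/7`

Bond percolation on `ℤ²`. A state `σ = (v, corner)` of an interface is a vertex `v` (on its right)
and one of the four faces at `v` (on its left); the edge examined at `σ` starts at `v` along this
face; if it is open the interface follows it, if it is closed the interface turns around `v` to the
next face. `path σ ω` is the interface from `σ` as a sequence of states. At `p = 1/2` it is almost
surely a closed loop, the boundary (outer perimeter, or boundary of a hole) of the open cluster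
of `v`.

`law p` is the law of independent edges, the edge `e` being open with probability `p e`.

* If all the probabilities `p e` are within `δ` of `1 / 2`, the total variation distance between the
  laws of the whole interface for `p` and for `1 / 2` is at most `C δ ^ (2/7)`.
* This order is attained by every perturbation of order `δ` of all the edges, whatever its signs:
  if `δ / A ≤ |p e - 1 / 2| ≤ δ` for all `e`, the distance is at least `c(A) δ ^ (2/7)`. This
  applies to the homogeneous percolation with parameter `q` (`A = 1`, `δ = |q - 1 / 2|`) and also to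
  the critical anisotropic percolation with parameters `1 / 2 + δ` and `1 / 2 - δ` for the
  horizontal and the vertical edges.

The constants do not depend on `σ`. Definitions of the model: `Pool.Agent.H974R2.{Model,Infinite}`
(`sqLattice`, `bondLaw`, `opn`), `Pool.Agent.H984R3.Per.Defs` (`St`, `nxt`, `orb`).
-/

set_option autoImplicit false

namespace Pool.Agent.Results.MP_6bd702_pr.LoopVariation

open H974 H984P MeasureTheory ProbabilityTheory

/-- Independent edges; `p e` is the probability that `e` is open. -/
noncomputable def law (p : sqLattice.edgeSet → unitInterval) : Measure (sqLattice.edgeSet → Bool) :=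
  Measure.infinitePi (fun e => bernoulliMeasure true false (p e))

/-- The interface which starts at `σ`: its state after `s` steps. -/
noncomputable def path (σ : St) (ω : sqLattice.edgeSet → Bool) (s : ℕ) : St :=
  (nxt (opn ω))^[s] σ

theorem result :
    (∀ q : unitInterval, law (fun _ => q) = bondLaw q) ∧
    (∀ᵐ ω ∂(bondLaw hlf), ∀ σ : St, ∃ s, 0 < s ∧ path σ ω s = σ) ∧
    (∃ C : ℝ, 0 < C ∧ ∀ (σ : St) (δ : ℝ) (p : sqLattice.edgeSet → unitInterval),
      (∀ e, |(p e : ℝ) - 1/2| ≤ δ) → ∀ B : Set (ℕ → St),
        |(law p).real {ω | path σ ω ∈ B} - (bondLaw hlf).real {ω | path σ ω ∈ B}| ≤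
          C * δ ^ (2/7 : ℝ)) ∧
    (∀ A : ℝ, 1 ≤ A → ∃ c : ℝ, 0 < c ∧ ∀ (σ : St) (δ : ℝ)
      (p : sqLattice.edgeSet → unitInterval),
      (∀ e, δ / A ≤ |(p e : ℝ) - 1/2| ∧ |(p e : ℝ) - 1/2| ≤ δ) →
        ∃ B : Set (ℕ → St), MeasurableSet {ω | path σ ω ∈ B} ∧ c * δ ^ (2/7 : ℝ) ≤
          |(law p).real {ω | path σ ω ∈ B} - (bondLaw hlf).real {ω | path σ ω ∈ B}|) := by
  have e : (2 * (1/7) : ℝ) = 2/7 := by norm_num
  refine ⟨fun q => rfl, ?_, ?_, ?_⟩
  · obtain ⟨c, C, hc, hC, h1, -⟩ := Pool.Agent.Results.MP_b3e76a_pr.LoopLaw.result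
    filter_upwards [h1] with ω hω σ
    exact ⟨_, (hω σ).1, Function.isPeriodicPt_minimalPeriod _ _⟩
  · obtain ⟨C, hC, h⟩ := Q292.TVY.loop_upper
    rw [e] at h
    exact ⟨C, hC, h⟩
  · intro A hA
    obtain ⟨c, hc, h⟩ := Q292.TVY.loop_lower hA
    rw [e] at h
    exact ⟨c, hc, h⟩

end Pool.Agent.Results.MP_6bd702_pr.LoopVariation
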